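import Pool.Agent.helper51.QW.Spec

/-!
# Project QW (MP_ad8ced_nt), row QWN: from `n` to `a`
-/

set_option autoImplicit false

namespace Pool.Agent.PT

open Finset Pool.Agent.helper71.AA

theorem QWN : QWN_stmt := by
  classical
  intro W a₀ b r p N X hW hpr hpW hpb hr hN hNX
  have hNr : (0 : ℝ) < N := by exact_mod_cast (by omega : 0 < N)
  have hlogN : 0 ≤ Real.log N := Real.log_nonneg (by exact_mod_cast hN)
  have hp2pos : 0 < p ^ 2 := pow_pos hpr.pos 2
  rw [← sum_filter_add_sum_filter_not _ (fun n => n.Prime)]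
  refine add_le_add ?_ ?_
  · rw [filter_filter]
    set T := {n ∈ Ioc 0 N | (n ≡ r [MOD W] ∧ n ≡ p ^ 2 - 1 [MOD p ^ 2]) ∧ n.Prime} with hT
    have h1 : ∑ n ∈ T, ArithmeticFunction.vonMangoldt n ≤ ∑ n ∈ T, Real.log N := by
      refine sum_le_sum fun n hn => ?_
      rw [hT, mem_filter, mem_Ioc] at hn
      rw [ArithmeticFunction.vonMangoldt_apply_prime hn.2.2]
      exact Real.log_le_log (by exact_mod_cast hn.1.1) (by exact_mod_cast hn.1.2)
    rw [sum_const, nsmul_eq_mul, mul_comm] at h1
    refine h1.trans (mul_le_mul_of_nonneg_left ?_ hlogN)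
    have hcard : T.card ≤ ((As W a₀ X).filter (fun a => (a * p ^ 2 - 1).Prime)).card := by
      have hkey : ∀ n ∈ T, (n + 1) / p ^ 2 * p ^ 2 = n + 1 := by
        intro n hn
        rw [hT, mem_filter, mem_Ioc] at hn
        apply Nat.div_mul_cancel
        have h2 : n + 1 ≡ p ^ 2 - 1 + 1 [MOD p ^ 2] := hn.2.1.2.add_right 1
        rw [Nat.sub_add_cancel hp2pos] at h2
        exact Nat.modEq_zero_iff_dvd.mp (h2.trans (by
          rw [Nat.modEq_zero_iff_dvd]))
      refine card_le_card_of_injOn (fun n => (n + 1) / p ^ 2) ?_ ?_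
      · intro n hn
        have hn' : n ∈ T := hn
        have hk := hkey n hn'
        rw [hT, mem_filter, mem_Ioc] at hn'
        obtain ⟨⟨hn0, hnN⟩, ⟨hnM, hnp⟩, hnpr⟩ := hn'
        set a := (n + 1) / p ^ 2 with ha
        have ha0 : 0 < a := by
          rcases Nat.eq_zero_or_pos a with h | h
          · rw [h, zero_mul] at hk; omega
          · exact h
        have hsub : a * p ^ 2 - 1 = n := by omega
        rw [mem_coe, mem_filter, As, mem_filter, mem_Icc]
        refine ⟨⟨⟨ha0, ?_⟩, ?_⟩, ?_⟩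
        · have h4 : a * p ^ 2 ≤ ⌊X⌋₊ * p ^ 2 := by
            calc a * p ^ 2 = n + 1 := hk
              _ ≤ N + 1 := by omega
              _ ≤ _ := hNX
          exact Nat.le_of_mul_le_mul_right h4 hp2pos
        · have h1 : n + 1 ≡ a₀ * b ^ 2 [MOD W] := (hnM.add_right 1).trans hr
          have h2 : a₀ * p ^ 2 ≡ a₀ * b ^ 2 [MOD W] := (hpb.pow 2).mul_left a₀
          have h3 : a * p ^ 2 ≡ a₀ * p ^ 2 [MOD W] := by
            rw [hk]
            exact h1.trans h2.symm
          exact Nat.ModEq.cancel_right_of_coprime (Nat.Coprime.symm (hpW.pow_left 2)) h3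
        · show (a * p ^ 2 - 1).Prime
          rw [hsub]; exact hnpr
      · intro n hn n' hn' h
        have h1 := hkey n hn
        have h2 := hkey n' hn'
        simp only at h
        rw [h, h2] at h1
        omega
    exact_mod_cast hcard
  · refine le_trans ?_ (Pool.Agent.helper85.SQ.pm_powers N hN)
    rw [filter_filter]
    refine sum_le_sum_of_subset_of_nonneg (fun n hn => ?_) fun n _ _ => ArithmeticFunction.vonMangoldt_nonneg
    rw [mem_filter] at hn ⊢
    exact ⟨hn.1, hn.2.2⟩

end Pool.Agent.PT
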